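import Pool.Agent.P.MP_a67bd8_gt.N4.Final

/-! The space `ℝ ^ (2 n)` is `ℂ ^ n` with `q j = re (z j)` and `p j = im (z j)`. -/

namespace Pool.Agent.Results.MP_a67bd8_gt.Knotted

open Set
open scoped ContDiff

variable {n : ℕ}

/-- a map on the torus read in the angle coordinates -/
noncomputable def lift (f : (Fin n → Circle) → Fin n → ℂ) (x : Fin n → ℝ) : Fin n → ℂ :=
  f fun j => Circle.exp (x j)

/-- the symplectic form `∑ dp j ∧ dq j` -/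
def omega (u v : Fin n → ℂ) : ℝ := ∑ j, ((u j).im * (v j).re - (u j).re * (v j).im)

/-- smooth embeddings of the torus with Lagrangian image -/
def IsLagEmb (f : (Fin n → Circle) → Fin n → ℂ) : Prop :=
  ContDiff ℝ ∞ (lift f) ∧ Function.Injective f ∧
    (∀ x, Function.Injective (fderiv ℝ (lift f) x)) ∧
    ∀ x u v, omega (fderiv ℝ (lift f) x u) (fderiv ℝ (lift f) x v) = 0

/-- isotopy through Lagrangian embeddings -/
def LagIsotopic (L₀ L₁ : Set (Fin n → ℂ)) : Prop :=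
  ∃ F : ℝ → (Fin n → Circle) → Fin n → ℂ,
    ContDiffOn ℝ ∞ (fun z : ℝ × (Fin n → ℝ) => lift (F z.1) z.2) (Icc 0 1 ×ˢ univ) ∧
    (∀ t ∈ Icc (0 : ℝ) 1, IsLagEmb (F t)) ∧ range (F 0) = L₀ ∧ range (F 1) = L₁

/-- the Clifford torus -/
def clifford (n : ℕ) : Set (Fin n → ℂ) := {z | ∀ j, (z j).im ^ 2 + (z j).re ^ 2 = 1 / (n : ℝ)}

theorem result (n : ℕ) (hn : 4 ≤ n) : ∃ f : (Fin n → Circle) → Fin n → ℂ,
    IsLagEmb f ∧ ¬LagIsotopic (range f) (clifford n) := by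
  obtain ⟨f, h1, h2⟩ := Pool.Agent.P.MP_a67bd8_gt.N4.final n hn
  refine ⟨f, ⟨h1.1, h1.2, h1.3, h1.4⟩, fun ⟨F, a, b, c, d⟩ => h2 ⟨F, a, fun t ht =>
    ⟨(b t ht).1, (b t ht).2.1, (b t ht).2.2.1, (b t ht).2.2.2⟩, c, d.trans ?_⟩⟩
  simp [clifford, Pool.Agent.P.MP_a67bd8_gt.clifford]

end Pool.Agent.Results.MP_a67bd8_gt.Knotted
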